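import Pool.Agent.UMG.StmtsB

set_option autoImplicit false

namespace Pool.Agent.UMG.B.H77

open Finset Pool.Agent.UMG Pool.Agent.UMG.B

/-- the half-edges at `v` by their partners -/
def fib {n : ℕ} {H : Type} (ν : H → Fin n) (m : H → H) (v : Fin n) :
    {h // ν h = v} ≃ Σ w : Fin n, {h // ν h = v ∧ ν (m h) = w} where
  toFun h := ⟨ν (m h.1), h.1, h.2, rfl⟩
  invFun x := ⟨x.2.1, x.2.2.1⟩
  left_inv _ := rfl
  right_inv := by
    rintro ⟨w, h, h1, h2⟩
    subst h2
    rfl

theorem dgf : DgfStmt := by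
  intro n B H _ ν m h v
  rw [Nat.card_congr (fib ν m v), Nat.card_sigma]
  have e : ∀ w : Fin n, Nat.card {h // ν h = v ∧ ν (m h) = w} =
      B v w + if v = w then B v w else 0 := by
    intro w
    have h1 : Nat.card {h // ν h = v ∧ ν (m h) = w} = tw B v w := h v w
    rw [h1]
    unfold tw
    by_cases hv : v = w
    · rw [if_pos hv, if_pos hv]; ring
    · rw [if_neg hv, if_neg hv]; ring
  rw [Finset.sum_congr rfl fun w _ => e w, Finset.sum_add_distrib, Finset.sum_ite_eq,
    if_pos (Finset.mem_univ v)]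
  rfl

end Pool.Agent.UMG.B.H77
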