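import Pool.Agent.UMG.StmtsB

set_option autoImplicit false

namespace Pool.Agent.UMG.B.H77

open Finset Pool.Agent.UMG Pool.Agent.UMG.B

/-- the sum for the length `i + 1` of the cycle -/
def SS {k : ℕ} (Λ : PF k) (i j : ℕ) : ℕ :=
  ∑ ρ : Equiv.Perm (Fin k), ∑ π' : Equiv.Perm (Fin j), ∑ σ' : Fin j → Equiv.Perm (Fin k),
    Λ (Fin i ⊕ Fin j) (cyp i π') (cys i ρ σ')

theorem term0 {k : ℕ} {Λ : PF k} (h : PInv k Λ) (m : ℕ) (ρ : Equiv.Perm (Fin k))
    (π' : Equiv.Perm (Fin m)) (σ' : Fin m → Equiv.Perm (Fin k)) :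
    Λ (Fin m) (Equiv.optionCongr π') (fun x => x.elim ρ σ') =
      Λ (Fin 0 ⊕ Fin m) (cyp 0 π') (cys 0 ρ σ') := by
  refine h (Fin m) (Fin 0 ⊕ Fin m) (Equiv.emptySum (Fin 0) (Fin m)).symm (fun _ => 1) _ _ _ _ ?_ ?_
  · intro x
    rcases x with _ | b
    · rfl
    · rfl
  · intro x
    rw [one_mul, mul_one]
    rcases x with _ | b
    · rfl
    · rfl

theorem claim (h1 : PcsStmt) (h2 : PceStmt) (k : ℕ) (m : ℕ) : ∀ Λ : PF k, PInv k Λ →
    TP Λ m = ∑ i ∈ range (m + 1), m.descFactorial i * k.factorial ^ i * SS Λ i (m - i) := by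
  induction m with
  | zero =>
    intro Λ hΛ
    obtain ⟨-, h4⟩ := h1 k Λ hΛ
    rw [h4 0, Nat.zero_mul, Nat.zero_mul, Nat.add_zero, zero_add, sum_range_one, pow_zero,
      Nat.descFactorial_zero, one_mul, one_mul]
    unfold SS
    exact Finset.sum_congr rfl fun ρ _ => Finset.sum_congr rfl fun π' _ =>
      Finset.sum_congr rfl fun σ' _ => term0 hΛ 0 ρ π' σ'
  | succ m ih =>
    intro Λ hΛ
    obtain ⟨h3, h4⟩ := h1 k Λ hΛ
    rw [h4 (m + 1), Nat.add_sub_cancel, ih (up Λ) h3, Finset.sum_range_succ' _ (m + 1),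
      add_comm]
    congr 1
    · rw [Finset.mul_sum]
      refine Finset.sum_congr rfl fun i _ => ?_
      have e : SS (up Λ) i (m - i) = SS Λ (i + 1) (m + 1 - (i + 1)) := by
        rw [Nat.add_sub_add_right]
        unfold SS
        exact Finset.sum_congr rfl fun ρ _ => Finset.sum_congr rfl fun π' _ =>
          Finset.sum_congr rfl fun σ' _ => h2 k Λ hΛ i _ π' ρ σ'
      rw [e, Nat.succ_descFactorial_succ, pow_succ]
      ring
    · rw [pow_zero, Nat.descFactorial_zero, one_mul, one_mul]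
      unfold SS
      exact Finset.sum_congr rfl fun ρ _ => Finset.sum_congr rfl fun π' _ =>
        Finset.sum_congr rfl fun σ' _ => term0 hΛ (m + 1) ρ π' σ'

theorem change {k : ℕ} {Θ : TF k} (h : TInv k Θ) {A B : Type} [Fintype A] [DecidableEq A]
    [Fintype B] [DecidableEq B] (e : A ≃ B) :
    (∑ π : Equiv.Perm A, ∑ σ : A → Equiv.Perm (Fin k), Θ A π σ) =
      ∑ π : Equiv.Perm B, ∑ σ : B → Equiv.Perm (Fin k), Θ B π σ := by
  refine Fintype.sum_equiv e.permCongr _ _ fun π => ?_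
  refine Fintype.sum_equiv (e.arrowCongr (Equiv.refl _)) _ _ fun σ => ?_
  refine h A B e (fun _ => 1) π σ _ _ ?_ ?_
  · intro a
    rw [Equiv.permCongr_apply, Equiv.symm_apply_apply]
  · intro a
    rw [one_mul, mul_one]
    show σ a = σ (e.symm (e a))
    rw [Equiv.symm_apply_apply]

theorem pcf (h1 : PcsStmt) (h2 : PceStmt) : PcfStmt := by
  intro k Θ hΘ m
  have hΛ : PInv k (fun A π σ => Θ (Option A) π σ) := by
    intro A A' e τ π σ π' σ' h3 h4
    exact hΘ (Option A) (Option A') (Equiv.optionCongr e) τ π σ π' σ' h3 h4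
  have h5 := claim h1 h2 k m (fun A π σ => Θ (Option A) π σ) hΛ
  have h6 : (∑ π : Equiv.Perm (Fin (m + 1)), ∑ σ : Fin (m + 1) → Equiv.Perm (Fin k),
      Θ (Fin (m + 1)) π σ) = TP (fun A π σ => Θ (Option A) π σ) m :=
    change hΘ (finSuccEquiv m)
  rw [h6, h5]
  refine Finset.sum_congr rfl fun i _ => ?_
  congr 1
  unfold SS
  refine Finset.sum_congr rfl fun ρ _ => Finset.sum_congr rfl fun π' _ =>
    Finset.sum_congr rfl fun σ' _ => ?_
  refine hΘ (Option (Fin i ⊕ Fin (m - i))) (Fin (i + 1) ⊕ Fin (m - i)) (oe i (Fin (m - i)))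
    (fun _ => 1) _ _ _ _ ?_ ?_
  · intro x
    unfold cyp
    rw [Equiv.permCongr_apply, Equiv.apply_symm_apply, Equiv.symm_symm]
  · intro x
    rw [one_mul, mul_one]
    rfl

end Pool.Agent.UMG.B.H77
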