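import Pool.Agent.UMG.CStmts

set_option autoImplicit false

namespace Pool.Agent.UMG.C.H77

open Finset Pool.Agent.UMG Pool.Agent.UMG.C

theorem sA_succ (x : ℕ → ℕ) (d : List ℕ) (s : ℕ × ℕ × ℕ) (t : ℕ) :
    sA x d s (t + 1) = sA x d (stA x d s) t := by
  induction t with
  | zero => rfl
  | succ t ih =>
    have h1 : sA x d s (t + 1 + 1) = stA x d (sA x d s (t + 1)) := rfl
    rw [h1, ih]
    rfl

theorem sA_end (x : ℕ → ℕ) (d : List ℕ) (s : ℕ × ℕ × ℕ) (h : ¬ s.1 < d.length) (t : ℕ) :
    sA x d s t = s := by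
  induction t with
  | zero => rfl
  | succ t ih =>
    have h1 : sA x d s (t + 1) = stA x d (sA x d s t) := rfl
    rw [h1, ih, stA, if_neg h]

theorem unA_step (x : ℕ → ℕ) (d : List ℕ) (v W u : ℕ) (h : v < d.length) :
    unA x (d.drop v) W u =
      ((iA x d (v, W, u) + 1, (qA x d (v, W, u)).1) ::
        (unA x (d.drop (v + 1 + iA x d (v, W, u))) (qA x d (v, W, u)).2.1
          (qA x d (v, W, u)).2.2).1,
        (unA x (d.drop (v + 1 + iA x d (v, W, u))) (qA x d (v, W, u)).2.1
          (qA x d (v, W, u)).2.2).2) := by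
  have hd : d.drop v = d.getD v 0 :: d.drop (v + 1) := by
    rw [List.drop_eq_getElem_cons h, List.getD_eq_getElem _ _ h]
  rw [hd, unA]
  simp only [List.drop_drop]
  rfl

/-- the contribution of a state -/
def K (x : ℕ → ℕ) (d : List ℕ) (s : ℕ × ℕ × ℕ) : List (ℕ × ℕ × ℕ) :=
  if s.1 < d.length then (qA x d s).1.map (fun i => (s.1, iA x d s + 1, i)) else []

theorem main (x : ℕ → ℕ) (d : List ℕ) (N : ℕ) : ∀ v W u T : ℕ, d.length - v ≤ N →
    d.length - v ≤ T →
    bund v (unA x (d.drop v) W u).1 = (List.range T).flatMap (fun t => K x d (sA x d (v, W, u) t)) ∧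
    (unA x (d.drop v) W u).2 = (sA x d (v, W, u) T).2 := by
  have base : ∀ v W u T : ℕ, ¬ v < d.length →
      bund v (unA x (d.drop v) W u).1 =
        (List.range T).flatMap (fun t => K x d (sA x d (v, W, u) t)) ∧
      (unA x (d.drop v) W u).2 = (sA x d (v, W, u) T).2 := by
    intro v W u T h
    have e : d.drop v = [] := List.drop_eq_nil_of_le (by omega)
    have e2 : (List.range T).flatMap (fun t => K x d (sA x d (v, W, u) t)) = [] := by
      rw [List.flatMap_eq_nil_iff]
      intro t _
      rw [sA_end x d (v, W, u) h, K, if_neg h]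
    rw [e2, sA_end x d (v, W, u) h, e, unA, bund]
    exact ⟨rfl, rfl⟩
  induction N with
  | zero =>
    intro v W u T hN _
    exact base v W u T (by omega)
  | succ N ih =>
    intro v W u T hN hT
    by_cases h : v < d.length
    · obtain ⟨T', rfl⟩ : ∃ T', T = T' + 1 := ⟨T - 1, by omega⟩
      have hst : stA x d (v, W, u) =
          (v + 1 + iA x d (v, W, u), (qA x d (v, W, u)).2.1, (qA x d (v, W, u)).2.2) := by
        rw [stA, if_pos h]
      obtain ⟨h1, h2⟩ := ih (v + 1 + iA x d (v, W, u)) (qA x d (v, W, u)).2.1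
        (qA x d (v, W, u)).2.2 T' (by omega) (by omega)
      rw [unA_step x d v W u h, List.range_succ_eq_map, List.flatMap_cons, List.flatMap_map,
        sA_succ, hst]
      refine ⟨?_, h2⟩
      rw [bund]
      have e1 : v + (iA x d (v, W, u) + 1) = v + 1 + iA x d (v, W, u) := by omega
      rw [e1, h1]
      have e2 : K x d (sA x d (v, W, u) 0) =
          (qA x d (v, W, u)).1.map (fun i => (v, iA x d (v, W, u) + 1, i)) := by
        show K x d (v, W, u) = _
        rw [K, if_pos h]
      rw [e2]
      congr 1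
      refine congrArg (fun g => (List.range T').flatMap g) (funext fun t => ?_)
      show K x d (sA x d _ t) = K x d (sA x d (v, W, u) (t + 1))
      rw [sA_succ, hst]
    · exact base v W u T h

theorem uas : UasStmt := by
  intro x d v W u T hT
  exact main x d (d.length - v) v W u T le_rfl hT

end Pool.Agent.UMG.C.H77
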