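import Pool.Agent.UMG.StmtsA

set_option autoImplicit false

namespace Pool.Agent.UMG.A.H77

open Finset

theorem ctb (hS : SqmStmt) : CtbStmt := by
  intro M j b
  have hp : 0 < sq M j (b + 1) ^ b := pow_pos (hS M j (b + 1) (b + 1) le_rfl).1 b
  have h0 : 0 ≤ Fh M j b := Finset.prod_nonneg fun i _ => (hS M j (i + 1) (i + 1) le_rfl).1.le
  have h1 : Fh M j b ≤ sq M j (b + 1) ^ b := by
    unfold Fh
    have h2 : ∏ i ∈ range b, sq M j (i + 1) ≤ ∏ _i ∈ range b, sq M j (b + 1) := by
      refine Finset.prod_le_prod (fun i _ => (hS M j (i + 1) (i + 1) le_rfl).1.le) fun i hi => ?_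
      rw [mem_range] at hi
      exact (hS M j (i + 1) (b + 1) (by omega)).2
    rwa [Finset.prod_const, card_range] at h2
  unfold ct
  exact ⟨div_nonneg h0 hp.le, (div_le_one hp).2 h1⟩

end Pool.Agent.UMG.A.H77
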