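import Pool.Agent.UMG.StmtsA

set_option autoImplicit false

namespace Pool.Agent.UMG.A.H77

open Finset

theorem succ_smul' {R : Type} [CommRing R] [Algebra ℚ R] (k : ℕ) (S : R) :
    ((k : R) + 1) * (((1 : ℚ) / ((k : ℚ) + 1)) • S) = S := by
  have h : ((k : ℚ) + 1) ≠ 0 := by positivity
  have e : ((k : R) + 1) = algebraMap ℚ R ((k : ℚ) + 1) := by
    rw [map_add, map_natCast, map_one]
  rw [e, Algebra.smul_def, ← mul_assoc, ← map_mul, mul_one_div_cancel h, map_one, one_mul]

theorem ein : EinStmt := by
  intro R _ _ x l k
  induction k using Nat.strong_induction_on with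
  | _ k ih =>
    cases k with
    | zero =>
      unfold hh
      rw [Eint, E, Nat.factorial_zero, Nat.cast_one, one_mul]
    | succ k =>
      unfold hh at ih ⊢
      rw [Eint, E, Nat.factorial_succ, Nat.cast_mul, Nat.cast_succ, mul_comm ((k : R) + 1),
        mul_assoc, succ_smul', Finset.mul_sum]
      refine Finset.sum_congr rfl fun i hi => ?_
      rw [mem_range] at hi
      have h1 : ((k - i).factorial : R) * (k.descFactorial i : R) = (k.factorial : R) := by
        rw [← Nat.cast_mul, Nat.factorial_mul_descFactorial (by omega)]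
      rw [ih (k - i) (by omega), ← h1]
      ring

end Pool.Agent.UMG.A.H77
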