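import Pool.Agent.UMG.StmtsA

set_option autoImplicit false

namespace Pool.Agent.UMG.A.H77

open Finset

theorem evc : EvcStmt := by
  intro R S _ _ _ _ φ w n
  induction n using Nat.strong_induction_on with
  | _ n ih =>
    cases n with
    | zero =>
      rw [E, E, map_one]
    | succ n =>
      rw [E, E, map_rat_smul, map_sum]
      congr 1
      refine Finset.sum_congr rfl fun i _ => ?_
      rw [map_mul, ih (n - i) (by omega)]

end Pool.Agent.UMG.A.H77
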