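import Pool.Agent.UMG.StmtsA

set_option autoImplicit false

namespace Pool.Agent.UMG.A.H77

open Finset

theorem mon : MonStmt := by
  intro w w' n
  induction n using Nat.strong_induction_on with
  | _ n ih =>
    intro h
    cases n with
    | zero =>
      rw [E, E]
      exact ⟨zero_le_one, le_rfl⟩
    | succ n =>
      have hc : (0 : ℝ) ≤ (((1 : ℚ) / ((n : ℚ) + 1) : ℚ) : ℝ) := by positivity
      have h1 : ∀ i ∈ range (n + 1), (0 ≤ w (i + 1) ∧ w (i + 1) ≤ w' (i + 1)) ∧
          (0 ≤ E w (n - i) ∧ E w (n - i) ≤ E w' (n - i)) := by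
        intro i hi
        rw [mem_range] at hi
        exact ⟨h (i + 1) (by omega) (by omega),
          ih (n - i) (by omega) fun l hl hl' => h l hl (by omega)⟩
      rw [E, E, Rat.smul_def, Rat.smul_def]
      constructor
      · exact mul_nonneg hc (Finset.sum_nonneg fun i hi =>
          mul_nonneg (h1 i hi).1.1 (h1 i hi).2.1)
      · exact mul_le_mul_of_nonneg_left (Finset.sum_le_sum fun i hi =>
          mul_le_mul (h1 i hi).1.2 (h1 i hi).2.2 (h1 i hi).2.1
            ((h1 i hi).1.1.trans (h1 i hi).1.2)) hc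

end Pool.Agent.UMG.A.H77
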